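import Mathlib
import Pool.Agent.N718.GC.Stm

/-!
# Part TRIV: points at which no form is divisible by `l`
-/

set_option autoImplicit false

namespace Pool.Agent.N530.GC

open Finset Pool.Agent.N718.DC Pool.Agent.N718.GC

/-- If `l` is large and no form is divisible by `l` then there is such a point. -/
theorem triv_of {m : ℕ} {e : Fin m → ℕ} {c : (i : Fin m) → Fin (e i + 2) → ℤ} {l : ℕ}
    (hl : l.Prime) (hlt : ∑ i, (e i + 1) < l) (h : ∀ i, ∃ j, ¬ (l : ℤ) ∣ c i j) : Triv c l := by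
  classical
  have : Fact l.Prime := ⟨hl⟩
  have hex : ∃ P : Fin m → Polynomial (ZMod l), (∀ i, P i ≠ 0) ∧ (∀ i, (P i).natDegree ≤ e i + 1) ∧
      ∀ i (t : ZMod l), (P i).eval t = ((fm (c i) 1 (t.val : ℤ) : ℤ) : ZMod l) := by
    refine ⟨fun i => ∑ j : Fin (e i + 2), Polynomial.C ((c i j : ℤ) : ZMod l) *
      Polynomial.X ^ (j : ℕ), fun i h0 => ?_, fun i => ?_, fun i t => ?_⟩
    · obtain ⟨j, hj⟩ := h i
      apply hj
      have h1 := congrArg (fun P : Polynomial (ZMod l) => P.coeff (j : ℕ)) h0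
      simp only [Polynomial.finsetSum_coeff, Polynomial.coeff_C_mul_X_pow,
        Polynomial.coeff_zero] at h1
      rw [Finset.sum_eq_single j (fun k _ hk => if_neg (fun h2 => hk (Fin.ext h2.symm)))
        (fun h2 => absurd (Finset.mem_univ j) h2), if_pos rfl] at h1
      exact (ZMod.intCast_zmod_eq_zero_iff_dvd _ _).1 h1
    · refine Polynomial.natDegree_sum_le_of_forall_le _ _ (fun j _ => ?_)
      refine (Polynomial.natDegree_C_mul_X_pow_le _ _).trans ?_
      have := j.2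
      omega
    · unfold fm
      rw [Polynomial.eval_finsetSum]
      push_cast
      refine Finset.sum_congr rfl fun j _ => ?_
      rw [Polynomial.eval_mul, Polynomial.eval_C, Polynomial.eval_pow, Polynomial.eval_X,
        one_pow, mul_one, ZMod.natCast_zmod_val]
  obtain ⟨P, hP0, hPd, hPe⟩ := hex
  have hprod : ∏ i, P i ≠ 0 := Finset.prod_ne_zero_iff.2 fun i _ => hP0 i
  have hd : (∏ i, P i).natDegree < l := lt_of_le_of_lt
    ((Polynomial.natDegree_prod_le _ _).trans (Finset.sum_le_sum fun i _ => hPd i)) hlt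
  have hroot : ∃ t : ZMod l, (∏ i, P i).eval t ≠ 0 := by
    by_contra hcon
    push Not at hcon
    have h1 : (Finset.univ : Finset (ZMod l)) ⊆ (∏ i, P i).roots.toFinset := by
      intro t _
      rw [Multiset.mem_toFinset, Polynomial.mem_roots hprod]
      exact hcon t
    have h2 := Finset.card_le_card h1
    rw [Finset.card_univ, ZMod.card] at h2
    have h3 := Multiset.toFinset_card_le (∏ i, P i).roots
    have h4 := Polynomial.card_roots' (∏ i, P i)
    omega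
  obtain ⟨t, ht⟩ := hroot
  refine ⟨1, (t.val : ℤ), fun i hi => ht ?_⟩
  rw [Polynomial.eval_prod]
  refine Finset.prod_eq_zero (Finset.mem_univ i) ?_
  rw [hPe]
  exact (ZMod.intCast_zmod_eq_zero_iff_dvd _ _).2 hi

/-- the number of the integers in a residue class -/
theorem cnt (H q : ℕ) (hq : 0 < q) (v : ℤ) :
    (((Icc (-(H : ℤ)) H).filter (fun x => (q : ℤ) ∣ x - v)).card : ℝ) ≤
      ((2 * H + 1 : ℕ) : ℝ) / q + 1 := by
  have h1 : (Icc (-(H : ℤ)) H).filter (fun x => (q : ℤ) ∣ x - v) =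
      (Ico (-(H : ℤ)) (H + 1)).filter (fun x => x ≡ v [ZMOD (q : ℤ)]) := by
    ext x
    simp only [mem_filter, mem_Icc, mem_Ico, Int.lt_add_one_iff]
    rw [Int.modEq_comm, Int.modEq_iff_dvd]
  have h2 := Int.Ico_filter_modEq_card (-(H : ℤ)) (H + 1) (r := (q : ℤ)) (by exact_mod_cast hq) v
  rw [h1]
  have h3 : (((#{x ∈ Ico (-(H : ℤ)) (H + 1) | x ≡ v [ZMOD (q : ℤ)]} : ℕ) : ℤ) : ℚ) ≤
      ((2 * H + 1 : ℕ) : ℚ) / q + 1 := by
    rw [h2]
    push_cast
    have hq0 : (0 : ℚ) < q := by exact_mod_cast hq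
    refine max_le ?_ (by positivity)
    have h4 := Int.ceil_lt_add_one ((((H : ℤ) + 1 : ℤ) - v : ℚ) / ((q : ℤ) : ℚ))
    have h5 := Int.le_ceil (((-(H : ℤ) : ℤ) - v : ℚ) / ((q : ℤ) : ℚ))
    push_cast at h4 h5 ⊢
    have h6 : (2 * (H : ℚ) + 1) / q = ((H : ℚ) + 1 - v) / q - (-(H : ℚ) - v) / q := by
      field_simp
      ring
    rw [h6]
    linarith
  have h7 : ((((#{x ∈ Ico (-(H : ℤ)) (H + 1) | x ≡ v [ZMOD (q : ℤ)]} : ℕ) : ℚ)) : ℝ) ≤
      ((((2 * H + 1 : ℕ) : ℚ) / q + 1 : ℚ) : ℝ) := by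
    exact_mod_cast h3
  push_cast at h7 ⊢
  exact h7

/-- the number of the multiples of `l` in a residue class modulo `M` -/
theorem cnt2 (H M l : ℕ) (hM : 0 < M) (hl : 0 < l) (hc : Nat.Coprime M l) (v : ℤ) :
    (((Icc (-(H : ℤ)) H).filter (fun x => (M : ℤ) ∣ x - v ∧ (l : ℤ) ∣ x)).card : ℝ) ≤
      ((2 * H + 1 : ℕ) : ℝ) / M / l + 1 := by
  by_cases hne : ((Icc (-(H : ℤ)) H).filter (fun x => (M : ℤ) ∣ x - v ∧ (l : ℤ) ∣ x)).Nonempty
  · obtain ⟨x₀, hx₀⟩ := hne
    rw [mem_filter] at hx₀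
    have h1 : (Icc (-(H : ℤ)) H).filter (fun x => (M : ℤ) ∣ x - v ∧ (l : ℤ) ∣ x) ⊆
        (Icc (-(H : ℤ)) H).filter (fun x => ((M * l : ℕ) : ℤ) ∣ x - x₀) := by
      intro x hx
      rw [mem_filter] at hx ⊢
      refine ⟨hx.1, ?_⟩
      push_cast
      have h2 : IsCoprime (M : ℤ) (l : ℤ) := Nat.isCoprime_iff_coprime.2 hc
      refine h2.mul_dvd ?_ ?_
      · have h3 := dvd_sub hx.2.1 hx₀.2.1
        rwa [sub_sub_sub_cancel_right] at h3
      · exact dvd_sub hx.2.2 hx₀.2.2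
    refine (Nat.cast_le.2 (card_le_card h1)).trans ((cnt H (M * l) (Nat.mul_pos hM hl) x₀).trans ?_)
    rw [div_div]
    push_cast
    exact le_refl _
  · rw [not_nonempty_iff_eq_empty] at hne
    rw [hne, card_empty]
    push_cast
    positivity

/-- products of sets, one group of factors is small -/
theorem fam_card {m n : ℕ} (e : Fin m → ℕ) (hn : ncI e = n + 2)
    (S T : (k : Fin m) → Fin (e k + 2) → Finset ℤ) (i : Fin m) (A τ : ℝ) (h0 : 0 ≤ τ) (hτ : τ ≤ A)
    (hS : ∀ k j, ((S k j).card : ℝ) ≤ A) (hT : ∀ j, ((T i j).card : ℝ) ≤ τ) :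
    ((Fintype.piFinset (fun k : Fin m => Fintype.piFinset
      (fun j : Fin (e k + 2) => if k = i then T k j else S k j))).card : ℝ) ≤ τ ^ 2 * A ^ n := by
  have hA : 0 ≤ A := h0.trans hτ
  rw [Fintype.card_piFinset]
  simp only [Fintype.card_piFinset]
  push_cast
  rw [← Finset.mul_prod_erase _ _ (Finset.mem_univ i)]
  have h1 : ∏ j : Fin (e i + 2), (((if i = i then T i j else S i j).card : ℕ) : ℝ) ≤
      τ ^ (e i + 2) := by
    calc ∏ j : Fin (e i + 2), (((if i = i then T i j else S i j).card : ℕ) : ℝ)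
        ≤ ∏ _j : Fin (e i + 2), τ := by
          refine Finset.prod_le_prod (fun j _ => Nat.cast_nonneg _) (fun j _ => ?_)
          rw [if_pos rfl]
          exact hT j
      _ = τ ^ (e i + 2) := by rw [Finset.prod_const, Finset.card_univ, Fintype.card_fin]
  have h2 : ∏ k ∈ Finset.univ.erase i, ∏ j : Fin (e k + 2),
      (((if k = i then T k j else S k j).card : ℕ) : ℝ) ≤ A ^ (∑ k ∈ Finset.univ.erase i, (e k + 2)) := by
    rw [← Finset.prod_pow_eq_pow_sum]
    refine Finset.prod_le_prod (fun k _ => Finset.prod_nonneg fun j _ => Nat.cast_nonneg _)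
      (fun k hk => ?_)
    calc ∏ j : Fin (e k + 2), (((if k = i then T k j else S k j).card : ℕ) : ℝ)
        ≤ ∏ _j : Fin (e k + 2), A := by
          refine Finset.prod_le_prod (fun j _ => Nat.cast_nonneg _) (fun j _ => ?_)
          rw [if_neg (Finset.ne_of_mem_erase hk)]
          exact hS k j
      _ = A ^ (e k + 2) := by rw [Finset.prod_const, Finset.card_univ, Fintype.card_fin]
  have h3 : e i + ∑ k ∈ Finset.univ.erase i, (e k + 2) = n := by
    have h4 : (e i + 2) + ∑ k ∈ Finset.univ.erase i, (e k + 2) = ∑ k, (e k + 2) :=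
      Finset.add_sum_erase Finset.univ (fun k => e k + 2) (Finset.mem_univ i)
    unfold ncI at hn
    omega
  have h5 : τ ^ (e i + 2) ≤ τ ^ 2 * A ^ e i := by
    rw [pow_add, mul_comm]
    exact mul_le_mul_of_nonneg_left (pow_le_pow_left₀ h0 hτ _) (by positivity)
  calc _ ≤ τ ^ (e i + 2) * A ^ (∑ k ∈ Finset.univ.erase i, (e k + 2)) :=
        mul_le_mul h1 h2 (Finset.prod_nonneg fun k _ => Finset.prod_nonneg fun j _ =>
          Nat.cast_nonneg _) (by positivity)
    _ ≤ (τ ^ 2 * A ^ e i) * A ^ (∑ k ∈ Finset.univ.erase i, (e k + 2)) :=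
        mul_le_mul_of_nonneg_right h5 (by positivity)
    _ = τ ^ 2 * A ^ n := by rw [mul_assoc, ← pow_add, h3]

theorem sum_sq (B : ℝ) (_hB : 0 ≤ B) (W H : ℕ) (hW : 0 < W) :
    ∑ l ∈ Ioc W H, (B / l + 1) ^ 2 ≤ 2 * B ^ 2 / W + 2 * H := by
  have h1 : ∑ l ∈ Ioc W H, (B / l + 1) ^ 2 ≤
      ∑ l ∈ Ioc W H, (2 * B ^ 2 * (((l : ℕ) : ℝ) ^ 2)⁻¹ + 2) := by
    refine Finset.sum_le_sum fun l hl => ?_
    have h2 : 2 * B ^ 2 * (((l : ℕ) : ℝ) ^ 2)⁻¹ = 2 * (B / l) ^ 2 := by
      rw [div_pow]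
      ring
    rw [h2]
    nlinarith [sq_nonneg (B / l - 1)]
  refine h1.trans ?_
  rw [Finset.sum_add_distrib, ← Finset.mul_sum, Finset.sum_const, Nat.card_Ioc, nsmul_eq_mul]
  have h3 : ∑ l ∈ Ioc W H, (((l : ℕ) : ℝ) ^ 2)⁻¹ ≤ (W : ℝ)⁻¹ := by
    by_cases hWH : W ≤ H
    · have h4 := sum_Ioc_inv_sq_le_sub (α := ℝ) hW.ne' hWH
      have h5 : (0 : ℝ) ≤ (H : ℝ)⁻¹ := by positivity
      linarith
    · rw [Finset.Ioc_eq_empty (fun h => hWH h.le), Finset.sum_empty]
      positivity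
  have h6 : ((H - W : ℕ) : ℝ) ≤ H := by exact_mod_cast Nat.sub_le H W
  have h7 : 2 * B ^ 2 * ∑ l ∈ Ioc W H, (((l : ℕ) : ℝ) ^ 2)⁻¹ ≤ 2 * B ^ 2 * (W : ℝ)⁻¹ :=
    mul_le_mul_of_nonneg_left h3 (by positivity)
  rw [div_eq_mul_inv]
  linarith

theorem pow_two_bound (B : ℝ) (n : ℕ) (hB : 1 ≤ B) (hn : 2 * (n : ℝ) ≤ B) :
    (B + 1) ^ n ≤ 2 * B ^ n := by
  have h1 : (-2 : ℝ) ≤ -(1 / (B + 1)) := by
    have : 1 / (B + 1) ≤ 1 := by
      rw [div_le_one (by linarith)]
      linarith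
    linarith
  have h2 := one_add_mul_le_pow h1 n
  have h3 : 1 + -(1 / (B + 1)) = B / (B + 1) := by
    field_simp
    ring
  rw [h3, div_pow] at h2
  have h4 : (n : ℝ) / (B + 1) ≤ 1 / 2 := by
    rw [div_le_div_iff₀ (by linarith) (by norm_num)]
    linarith
  have h5 : (1 : ℝ) / 2 ≤ B ^ n / (B + 1) ^ n := by
    refine le_trans ?_ h2
    have : (n : ℝ) * -(1 / (B + 1)) = -((n : ℝ) / (B + 1)) := by ring
    rw [this]
    linarith
  rw [le_div_iff₀ (by positivity)] at h5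
  linarith

/-- Part TRIV. -/
theorem triv_ : S_TRIV := by
  classical
  intro m e η hη
  refine ⟨∑ i, (e i + 1) + ⌈8 * (m : ℝ) / η⌉₊ + 1, fun W hW M hM hMW γ => ?_⟩
  refine ⟨⌈(M : ℝ) * (2 * (ncI e : ℝ) + 4 * m * M / η + 1)⌉₊, fun H hH => ?_⟩
  have hM0 : (0 : ℝ) < M := by exact_mod_cast hM
  have hW0 : 0 < W := by omega
  have hW0' : (0 : ℝ) < W := by exact_mod_cast hW0
  obtain ⟨B, hB⟩ : ∃ B : ℝ, B = ((2 * H + 1 : ℕ) : ℝ) / M := ⟨_, rfl⟩
  have hH1 : (M : ℝ) * (2 * (ncI e : ℝ) + 4 * m * M / η + 1) ≤ H := Nat.ceil_le.1 hH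
  have hBH : B * M = 2 * (H : ℝ) + 1 := by
    rw [hB, div_mul_cancel₀ _ hM0.ne']
    push_cast
    ring
  have hB1 : 2 * (ncI e : ℝ) + 4 * m * M / η + 1 ≤ B := by
    rw [hB, le_div_iff₀ hM0]
    push_cast
    have : (0 : ℝ) ≤ H := Nat.cast_nonneg _
    linarith
  have hpos1 : (0 : ℝ) ≤ 4 * m * M / η := by positivity
  have hnc0 : (0 : ℝ) ≤ (ncI e : ℝ) := Nat.cast_nonneg _
  have hBone : 1 ≤ B := by linarith
  have hB0 : 0 < B := by linarith
  rw [← hB]
  -- the sets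
  let S : (k : Fin m) → Fin (e k + 2) → Finset ℤ := fun k j =>
    (Icc (-(H : ℤ)) H).filter (fun x => (M : ℤ) ∣ x - γ k j)
  let T : ℕ → (k : Fin m) → Fin (e k + 2) → Finset ℤ := fun l k j =>
    (Icc (-(H : ℤ)) H).filter (fun x => (M : ℤ) ∣ x - γ k j ∧ (l : ℤ) ∣ x)
  let Z : (k : Fin m) → Fin (e k + 2) → Finset ℤ := fun k j => {0}
  let Q : ((k : Fin m) → Fin (e k + 2) → Finset ℤ) → Fin m →
      Finset ((k : Fin m) → Fin (e k + 2) → ℤ) := fun R i =>
    Fintype.piFinset (fun k : Fin m => Fintype.piFinset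
      (fun j : Fin (e k + 2) => if k = i then R k j else S k j))
  have hsub : (BXI e H).filter (fun c => (∀ i j, (M : ℤ) ∣ c i j - γ i j) ∧
      ∃ l : ℕ, l.Prime ∧ W < l ∧ ¬ Triv c l) ⊆
      Finset.univ.biUnion (fun i : Fin m => Q Z i ∪
        ((Ioc W H).filter Nat.Prime).biUnion (fun l => Q (T l) i)) := by
    intro c hc
    rw [mem_filter] at hc
    obtain ⟨hcB, hcM, l, hl, hWl, hT⟩ := hc
    have hcB' : ∀ k j, c k j ∈ Icc (-(H : ℤ)) H := by
      intro k j
      unfold BXI at hcB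
      rw [Fintype.mem_piFinset] at hcB
      exact Fintype.mem_piFinset.1 (hcB k) j
    have h1 : ∃ i, ∀ j, (l : ℤ) ∣ c i j := by
      by_contra hcon
      push Not at hcon
      exact hT (triv_of hl (by omega) hcon)
    obtain ⟨i, hi⟩ := h1
    rw [mem_biUnion]
    refine ⟨i, mem_univ i, ?_⟩
    rw [mem_union]
    by_cases hlH : l ≤ H
    · right
      rw [mem_biUnion]
      refine ⟨l, mem_filter.2 ⟨mem_Ioc.2 ⟨hWl, hlH⟩, hl⟩, ?_⟩
      refine Fintype.mem_piFinset.2 fun k => Fintype.mem_piFinset.2 fun j => ?_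
      by_cases hk : k = i
      · subst hk
        rw [if_pos rfl]
        exact mem_filter.2 ⟨hcB' k j, hcM k j, hi j⟩
      · rw [if_neg hk]
        exact mem_filter.2 ⟨hcB' k j, hcM k j⟩
    · left
      refine Fintype.mem_piFinset.2 fun k => Fintype.mem_piFinset.2 fun j => ?_
      by_cases hk : k = i
      · subst hk
        rw [if_pos rfl]
        have h2 := mem_Icc.1 (hcB' k j)
        have h3 : |c k j| < (l : ℤ) := by
          rw [abs_lt]
          constructor <;> omega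
        exact mem_singleton.2 (Int.eq_zero_of_abs_lt_dvd (hi j) h3)
      · rw [if_neg hk]
        exact mem_filter.2 ⟨hcB' k j, hcM k j⟩
  have hS : ∀ k j, ((S k j).card : ℝ) ≤ B + 1 := by
    intro k j
    have := cnt H M hM (γ k j)
    rw [← hB] at this
    exact this
  have hper : ∀ i : Fin m, ((Q Z i ∪ ((Ioc W H).filter Nat.Prime).biUnion
      (fun l => Q (T l) i)).card : ℝ) ≤ (4 / W + 2 * M / B) * B ^ ncI e := by
    intro i
    obtain ⟨n, hn⟩ : ∃ n, ncI e = n + 2 := by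
      refine ⟨ncI e - 2, ?_⟩
      have h1 : e i + 2 ≤ ncI e :=
        Finset.single_le_sum (f := fun k => e k + 2) (fun _ _ => Nat.zero_le _) (mem_univ i)
      omega
    have hZ : ((Q Z i).card : ℝ) ≤ (B + 1) ^ n := by
      have := fam_card e hn S Z i (B + 1) 1 zero_le_one (by linarith) hS (fun j => by simp [Z])
      rw [one_pow, one_mul] at this
      exact this
    have hT : ∀ l ∈ (Ioc W H).filter Nat.Prime, ((Q (T l) i).card : ℝ) ≤
        (B / l + 1) ^ 2 * (B + 1) ^ n := by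
      intro l hl
      rw [mem_filter, mem_Ioc] at hl
      have hl0 : 0 < l := hl.2.pos
      have hl1 : (1 : ℝ) ≤ l := by exact_mod_cast hl0
      have hcop : Nat.Coprime M l := by
        rw [Nat.coprime_comm, hl.2.coprime_iff_not_dvd]
        intro hd
        have := hMW l hl.2 hd
        omega
      refine fam_card e hn S (T l) i (B + 1) (B / l + 1) (by positivity) ?_ hS ?_
      · have : B / l ≤ B := div_le_self hB0.le hl1
        linarith
      · intro j
        have := cnt2 H M l hM hl0 hcop (γ i j)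
        rw [← hB] at this
        exact this
    have hU : ((Q Z i ∪ ((Ioc W H).filter Nat.Prime).biUnion (fun l => Q (T l) i)).card : ℝ) ≤
        (B + 1) ^ n + ∑ l ∈ (Ioc W H).filter Nat.Prime, (B / l + 1) ^ 2 * (B + 1) ^ n := by
      have h1 := Finset.card_union_le (Q Z i)
        (((Ioc W H).filter Nat.Prime).biUnion (fun l => Q (T l) i))
      have h2 : (((Ioc W H).filter Nat.Prime).biUnion (fun l => Q (T l) i)).card ≤
          ∑ l ∈ (Ioc W H).filter Nat.Prime, (Q (T l) i).card := Finset.card_biUnion_le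
      have h3 : ((Q Z i ∪ ((Ioc W H).filter Nat.Prime).biUnion (fun l => Q (T l) i)).card : ℝ) ≤
          (Q Z i).card + ∑ l ∈ (Ioc W H).filter Nat.Prime, ((Q (T l) i).card : ℝ) := by
        exact_mod_cast h1.trans (Nat.add_le_add_left h2 _)
      refine h3.trans (add_le_add hZ (Finset.sum_le_sum hT))
    refine hU.trans ?_
    rw [← Finset.sum_mul]
    have h4 : ∑ l ∈ (Ioc W H).filter Nat.Prime, (B / l + 1) ^ 2 ≤ 2 * B ^ 2 / W + 2 * H :=
      (Finset.sum_le_sum_of_subset_of_nonneg (Finset.filter_subset _ _)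
        (fun _ _ _ => by positivity)).trans (sum_sq B hB0.le W H hW0)
    have h5 : (B + 1) ^ n ≤ 2 * B ^ n := by
      refine pow_two_bound B n hBone ?_
      have : (ncI e : ℝ) = n + 2 := by
        rw [hn]
        push_cast
        ring
      linarith
    have h6 : (0 : ℝ) ≤ 2 * B ^ 2 / W + B * M := by positivity
    calc (B + 1) ^ n + (∑ l ∈ (Ioc W H).filter Nat.Prime, (B / l + 1) ^ 2) * (B + 1) ^ n
        ≤ (B + 1) ^ n + (2 * B ^ 2 / W + 2 * H) * (B + 1) ^ n :=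
          add_le_add le_rfl (mul_le_mul_of_nonneg_right h4 (by positivity))
      _ = (2 * B ^ 2 / W + B * M) * (B + 1) ^ n := by
          rw [hBH]
          ring
      _ ≤ (2 * B ^ 2 / W + B * M) * (2 * B ^ n) := mul_le_mul_of_nonneg_left h5 h6
      _ = (4 / W + 2 * M / B) * B ^ ncI e := by
          rw [hn, pow_add]
          field_simp
          ring
  have h1 := (Finset.card_le_card hsub).trans Finset.card_biUnion_le
  have h2 : ((((BXI e H).filter (fun c => (∀ i j, (M : ℤ) ∣ c i j - γ i j) ∧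
      ∃ l : ℕ, l.Prime ∧ W < l ∧ ¬ Triv c l)).card : ℕ) : ℝ) ≤
      ∑ i : Fin m, ((Q Z i ∪ ((Ioc W H).filter Nat.Prime).biUnion
      (fun l => Q (T l) i)).card : ℝ) := by
    exact_mod_cast h1
  refine h2.trans ((Finset.sum_le_sum fun i _ => hper i).trans ?_)
  rw [Finset.sum_const, Finset.card_univ, Fintype.card_fin, nsmul_eq_mul, ← mul_assoc]
  refine mul_le_mul_of_nonneg_right ?_ (by positivity)
  have h3 : 8 * (m : ℝ) / η ≤ W := by
    refine (Nat.le_ceil _).trans ?_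
    exact_mod_cast (by omega : ⌈8 * (m : ℝ) / η⌉₊ ≤ W)
  have h4 : (m : ℝ) * (4 / W) ≤ η / 2 := by
    rw [div_le_iff₀ hη] at h3
    rw [mul_div_assoc', div_le_iff₀ hW0']
    linarith
  have h5 : (m : ℝ) * (2 * M / B) ≤ η / 2 := by
    have h6 : 4 * (m : ℝ) * M / η ≤ B := by linarith
    rw [div_le_iff₀ hη] at h6
    rw [mul_div_assoc', div_le_iff₀ hB0]
    linarith
  rw [mul_add]
  linarith

end Pool.Agent.N530.GC
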